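import Mathlib
import Pool.Agent.H555RG.Main

/-!
# Eigenvectors of Jacobi matrices on the red-green tree

`K_{r,g}` has the red vertices `Sum.inl i` (`i : Fin r`) and the green vertices `Sum.inr j`
(`j : Fin g`).  The universal cover is a tree `T` with a covering map `X`.
-/

namespace Pool.Agent.Results.MP_1155ce_an.RedGreen

open Pool.Agent.H555RG

/-- `X : T -> K_{r,g}` is the universal cover: `T` is a tree and `X` maps the neighbours of every
vertex `x` bijectively onto the neighbours of `X x`. -/
structure IsUniversalCover {r g : ℕ} {V : Type} (T : SimpleGraph V) (X : V → Fin r ⊕ Fin g) :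
    Prop where
  tree : T.IsTree
  cover : ∀ x, Set.BijOn X (T.neighborSet x)
    ((completeBipartiteGraph (Fin r) (Fin g)).neighborSet (X x))

/-- The weight of the edge between two vertices of `K_{r,g}` (zero if they are not adjacent). -/
def weight {r g : ℕ} (a : Fin r → Fin g → ℝ) : Fin r ⊕ Fin g → Fin r ⊕ Fin g → ℝ
  | Sum.inl i, Sum.inr j => a i j
  | Sum.inr j, Sum.inl i => a i j
  | _, _ => 0

/-- The lift `H` of the Jacobi matrix with edge weights `a` and vertex potential `b`:
`(H u)(x) = b_{X x} u(x) + sum over the neighbours y of x of a_{X(xy)} u(y)`. -/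
noncomputable def jacobi {r g : ℕ} {V : Type} (T : SimpleGraph V) (X : V → Fin r ⊕ Fin g)
    (a : Fin r → Fin g → ℝ) (b : Fin r ⊕ Fin g → ℝ) (u : V → ℂ) (x : V) : ℂ :=
  (b (X x) : ℂ) * u x + ∑ᶠ y ∈ T.neighborSet x, (weight a (X x) (X y) : ℂ) * u y

/-- `u` is an eigenvector of `H` for the eigenvalue `lam`: a nonzero square summable function
with `H u = lam u`. -/
structure IsEigenvector {r g : ℕ} {V : Type} (T : SimpleGraph V) (X : V → Fin r ⊕ Fin g)
    (a : Fin r → Fin g → ℝ) (b : Fin r ⊕ Fin g → ℝ) (lam : ℝ) (u : V → ℂ) : Prop where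
  ne_zero : u ≠ 0
  sq_summable : Summable fun x => ‖u x‖ ^ 2
  eq : ∀ x, jacobi T X a b u x = (lam : ℂ) * u x

section

variable {r g : ℕ} {V : Type} {T : SimpleGraph V} {X : V → Fin r ⊕ Fin g}

theorem adj_iff (i j : Fin r ⊕ Fin g) :
    (completeBipartiteGraph (Fin r) (Fin g)).Adj i j ↔ i.isLeft ≠ j.isLeft := by
  cases i <;> cases j <;> simp

open Classical in
/-- The neighbour with a given label. -/
noncomputable def nb (T : SimpleGraph V) (X : V → Fin r ⊕ Fin g) (x : V) (l : Fin r ⊕ Fin g) : V :=
  if h : ∃ y, T.Adj x y ∧ X y = l then h.choose else x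

theorem nb_spec (hc : IsUniversalCover T X) (x : V) (l : Fin r ⊕ Fin g)
    (h : (X x).isLeft ≠ l.isLeft) : T.Adj x (nb T X x l) ∧ X (nb T X x l) = l := by
  have h1 : l ∈ (completeBipartiteGraph (Fin r) (Fin g)).neighborSet (X x) := by
    rw [SimpleGraph.mem_neighborSet, adj_iff]
    exact h
  obtain ⟨y, hy1, hy2⟩ := (hc.cover x).surjOn h1
  have h2 : ∃ y, T.Adj x y ∧ X y = l := ⟨y, hy1, hy2⟩
  unfold nb
  rw [dif_pos h2]
  exact h2.choose_spec

theorem adj_col (hc : IsUniversalCover T X) (x y : V) (h : T.Adj x y) :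
    (X x).isLeft ≠ (X y).isLeft := by
  have h1 := (hc.cover x).mapsTo (show y ∈ T.neighborSet x from h)
  rw [SimpleGraph.mem_neighborSet, adj_iff] at h1
  exact h1

theorem nb_eq (hc : IsUniversalCover T X) (x y : V) (h : T.Adj x y) : nb T X x (X y) = y := by
  obtain ⟨h1, h2⟩ := nb_spec hc x (X y) (adj_col hc x y h)
  exact (hc.cover x).injOn h1 h h2

theorem weight_symm (a : Fin r → Fin g → ℝ) (i j : Fin r ⊕ Fin g) :
    weight a i j = weight a j i := by
  cases i <;> cases j <;> rfl

theorem weight_pos {a : Fin r → Fin g → ℝ} (ha : ∀ i j, 0 < a i j) (i j : Fin r ⊕ Fin g)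
    (h : i.isLeft ≠ j.isLeft) : 0 < weight a i j := by
  cases i <;> cases j <;> simp_all [weight]

theorem weight_zero (a : Fin r → Fin g → ℝ) (i j : Fin r ⊕ Fin g)
    (h : i.isLeft = j.isLeft) : weight a i j = 0 := by
  cases i <;> cases j <;> simp_all [weight]

/-- The data used in the abstract proof. -/
noncomputable def dat (hc : IsUniversalCover T X) (a : Fin r → Fin g → ℝ)
    (ha : ∀ i j, 0 < a i j) (b : Fin r ⊕ Fin g → ℝ) (lam : ℝ) : Dat V (Fin r ⊕ Fin g) where
  T := T
  tree := hc.tree
  lab := X
  col := Sum.isLeft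
  nb := nb T X
  nb_adj := fun x l h => (nb_spec hc x l h).1
  nb_lab := fun x l h => (nb_spec hc x l h).2
  nb_eq := nb_eq hc
  adj_col := adj_col hc
  w := weight a
  w_symm := weight_symm a
  w_pos := weight_pos ha
  w_zero := weight_zero a
  b := fun l => b l - lam

theorem finsum_nb (hc : IsUniversalCover T X) (a : Fin r → Fin g → ℝ) (u : V → ℂ) (x : V) :
    ∑ᶠ y ∈ T.neighborSet x, (weight a (X x) (X y) : ℂ) * u y =
      ∑ l, (weight a (X x) l : ℂ) * u (nb T X x l) := by
  classical
  have e1 : T.neighborSet x =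
      ((Finset.univ.filter (fun l : Fin r ⊕ Fin g => (X x).isLeft ≠ l.isLeft)).image
        (nb T X x) : Finset V) := by
    ext y
    simp only [SimpleGraph.mem_neighborSet, Finset.coe_image, Finset.coe_filter,
      Finset.mem_univ, true_and, Set.mem_image]
    constructor
    · intro h
      exact ⟨X y, adj_col hc x y h, nb_eq hc x y h⟩
    · rintro ⟨l, hl, rfl⟩
      exact (nb_spec hc x l hl).1
  rw [e1, finsum_mem_coe_finset, Finset.sum_image]
  · rw [← Finset.sum_subset (Finset.filter_subset
      (fun l : Fin r ⊕ Fin g => (X x).isLeft ≠ l.isLeft) Finset.univ)]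
    · apply Finset.sum_congr rfl
      intro l hl
      rw [(nb_spec hc x l (Finset.mem_filter.1 hl).2).2]
    · intro l _ hl
      have : (X x).isLeft = l.isLeft := by
        by_contra h
        exact hl (Finset.mem_filter.2 ⟨Finset.mem_univ _, h⟩)
      rw [weight_zero a _ _ this]
      simp
  · intro l hl l' hl' h
    have h1 := (nb_spec hc x l (Finset.mem_filter.1 hl).2).2
    have h2 := (nb_spec hc x l' (Finset.mem_filter.1 hl').2).2
    rw [← h1, ← h2]
    exact congrArg X h

theorem InF_of_ne (hc : IsUniversalCover T X) {a : Fin r → Fin g → ℝ}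
    (ha : ∀ i j, 0 < a i j) {b : Fin r ⊕ Fin g → ℝ} {lam : ℝ} {u : V → ℂ}
    (hu : IsEigenvector T X a b lam u) {x : V} (hx : u x ≠ 0) :
    (dat hc a ha b lam).InF x := by
  have hre : Summable fun x => (u x).re ^ 2 :=
    Summable.of_nonneg_of_le (fun x => sq_nonneg _)
      (fun x => by
        rw [← sq_abs]
        exact pow_le_pow_left₀ (abs_nonneg _) (Complex.abs_re_le_norm _) 2) hu.sq_summable
  have him : Summable fun x => (u x).im ^ 2 :=
    Summable.of_nonneg_of_le (fun x => sq_nonneg _)
      (fun x => by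
        rw [← sq_abs]
        exact pow_le_pow_left₀ (abs_nonneg _) (Complex.abs_im_le_norm _) 2) hu.sq_summable
  have hN1 : mk2 (fun x => (u x).re) hre ∈ (dat hc a ha b lam).N := by
    rw [Dat.mem_N]
    intro z
    have h := congrArg Complex.re (hu.eq z)
    unfold jacobi at h
    rw [finsum_nb hc] at h
    simp only [Complex.add_re, Complex.re_ofReal_mul, Complex.re_sum] at h
    show (b (X z) - lam) * (u z).re + ∑ l, weight a (X z) l * (u (nb T X z l)).re = 0
    linarith
  have hN2 : mk2 (fun x => (u x).im) him ∈ (dat hc a ha b lam).N := by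
    rw [Dat.mem_N]
    intro z
    have h := congrArg Complex.im (hu.eq z)
    unfold jacobi at h
    rw [finsum_nb hc] at h
    simp only [Complex.add_im, Complex.im_ofReal_mul, Complex.im_sum] at h
    show (b (X z) - lam) * (u z).im + ∑ l, weight a (X z) l * (u (nb T X z l)).im = 0
    linarith
  by_cases h : (u x).re = 0
  · refine ⟨_, hN2, ?_⟩
    rw [mk2_apply]
    intro h2
    exact hx (Complex.ext h h2)
  · exact ⟨_, hN1, by rw [mk2_apply]; exact h⟩

theorem main (hg : 2 ≤ g) (hrg : g < r) (hc : IsUniversalCover T X) {a : Fin r → Fin g → ℝ}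
    (ha : ∀ i j, 0 < a i j) {b : Fin r ⊕ Fin g → ℝ} {lam : ℝ} {u : V → ℂ}
    (hu : IsEigenvector T X a b lam u) :
    (∀ x, (X x).isRight → u x = 0) ∧
      g < (Finset.univ.filter (fun i : Fin r => b (Sum.inl i) = lam)).card := by
  classical
  have hL : ∀ l : Fin r ⊕ Fin g, ∃ d, (dat hc a ha b lam).col d = (dat hc a ha b lam).col l ∧
      d ≠ l := by
    intro l
    have hr : 1 < Fintype.card (Fin r) := by rw [Fintype.card_fin]; omega
    have hg' : 1 < Fintype.card (Fin g) := by rw [Fintype.card_fin]; omega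
    rcases l with i | j
    · obtain ⟨d, hd⟩ := Fintype.exists_ne_of_one_lt_card hr i
      exact ⟨Sum.inl d, rfl, fun h => hd (Sum.inl_injective h)⟩
    · obtain ⟨d, hd⟩ := Fintype.exists_ne_of_one_lt_card hg' j
      exact ⟨Sum.inr d, rfl, fun h => hd (Sum.inr_injective h)⟩
  obtain ⟨x0, hx0⟩ := Function.ne_iff.1 hu.ne_zero
  obtain ⟨k, h1, h2, h3⟩ := (dat hc a ha b lam).support hL ⟨x0, InF_of_ne hc ha hu hx0⟩
  set S := Finset.univ.filter
    (fun l => ∃ x, (dat hc a ha b lam).lab x = l ∧ (dat hc a ha b lam).InF x) with hS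
  have hSk : ∀ l ∈ S, l.isLeft = k ∧ b l = lam := by
    intro l hl
    obtain ⟨_, x, hx, hF⟩ := Finset.mem_filter.1 hl
    refine ⟨by rw [← hx]; exact h1 x hF, ?_⟩
    have := h2 x hF
    rw [hx] at this
    have h4 : b l - lam = 0 := this
    linarith
  -- the colour is red
  have hk : k = true := by
    by_contra hk
    have hk' : k = false := by simpa using hk
    have e1 : (Finset.univ.filter (fun l : Fin r ⊕ Fin g => l.isLeft ≠ k)).card = r := by
      have : Finset.univ.filter (fun l : Fin r ⊕ Fin g => l.isLeft ≠ k) =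
          Finset.univ.map ⟨Sum.inl, Sum.inl_injective⟩ := by
        ext l
        rcases l with i | j <;> simp [hk']
      rw [this, Finset.card_map]
      simp
    have e2 : S.card ≤ g := by
      have : S ⊆ Finset.univ.map ⟨Sum.inr, Sum.inr_injective⟩ := by
        intro l hl
        have := (hSk l hl).1
        rcases l with i | j
        · rw [hk'] at this
          simp at this
        · simp
      calc S.card ≤ _ := Finset.card_le_card this
        _ = g := by rw [Finset.card_map]; simp
    have h5 : (Finset.univ.filter (fun l : Fin r ⊕ Fin g => l.isLeft ≠ k)).card < S.card := h3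
    rw [e1] at h5
    omega
  refine ⟨?_, ?_⟩
  · intro x hx
    by_contra hne
    have h5 : (X x).isLeft = k := h1 x (InF_of_ne hc ha hu hne)
    rw [hk] at h5
    cases hX : X x with
    | inl i => rw [hX] at hx; simp at hx
    | inr j => rw [hX] at h5; simp at h5
  · have e1 : (Finset.univ.filter (fun l : Fin r ⊕ Fin g => l.isLeft ≠ k)).card = g := by
      have : Finset.univ.filter (fun l : Fin r ⊕ Fin g => l.isLeft ≠ k) =
          Finset.univ.map ⟨Sum.inr, Sum.inr_injective⟩ := by
        ext l
        rcases l with i | j <;> simp [hk]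
      rw [this, Finset.card_map]
      simp
    have e2 : S.card ≤ (Finset.univ.filter (fun i : Fin r => b (Sum.inl i) = lam)).card := by
      have : S ⊆ (Finset.univ.filter (fun i : Fin r => b (Sum.inl i) = lam)).map
          ⟨Sum.inl, Sum.inl_injective⟩ := by
        intro l hl
        obtain ⟨h6, h7⟩ := hSk l hl
        rcases l with i | j
        · simp only [Finset.mem_map, Finset.mem_filter, Finset.mem_univ, true_and]
          exact ⟨i, h7, rfl⟩
        · rw [hk] at h6
          simp at h6
      calc S.card ≤ _ := Finset.card_le_card this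
        _ = _ := Finset.card_map _
    have h5 : (Finset.univ.filter (fun l : Fin r ⊕ Fin g => l.isLeft ≠ k)).card < S.card := h3
    rw [e1] at h5
    omega

end

/-- Let `r > g >= 2`. For every Jacobi matrix on `K_{r,g}` (weights `a > 0`, potential `b`) every
eigenvector of its lift to the universal cover vanishes at all green vertices; moreover the
eigenvalue equals the potential at more than `g` of the `r` red vertices of `K_{r,g}`. -/
theorem result (r g : ℕ) (hg : 2 ≤ g) (hrg : g < r) (V : Type) (T : SimpleGraph V)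
    (X : V → Fin r ⊕ Fin g) (hX : IsUniversalCover T X)
    (a : Fin r → Fin g → ℝ) (ha : ∀ i j, 0 < a i j) (b : Fin r ⊕ Fin g → ℝ) (lam : ℝ)
    (u : V → ℂ) (hu : IsEigenvector T X a b lam u) :
    (∀ x, (X x).isRight → u x = 0) ∧
      g < (Finset.univ.filter (fun i : Fin r => b (Sum.inl i) = lam)).card :=
  main hg hrg hX ha hu

/-- Consequence: if the potential takes distinct values at the red vertices, the lift has no
eigenvalue. -/
theorem no_eigenvalue (r g : ℕ) (hg : 2 ≤ g) (hrg : g < r) (V : Type) (T : SimpleGraph V)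
    (X : V → Fin r ⊕ Fin g) (hX : IsUniversalCover T X)
    (a : Fin r → Fin g → ℝ) (ha : ∀ i j, 0 < a i j) (b : Fin r ⊕ Fin g → ℝ)
    (hb : Function.Injective fun i : Fin r => b (Sum.inl i)) (lam : ℝ)
    (u : V → ℂ) : ¬ IsEigenvector T X a b lam u := by
  intro hu
  have h := (main hg hrg hX ha hu).2
  have h2 : (Finset.univ.filter (fun i : Fin r => b (Sum.inl i) = lam)).card ≤ 1 := by
    rw [Finset.card_le_one]
    intro i hi j hj
    exact hb (((Finset.mem_filter.1 hi).2).trans ((Finset.mem_filter.1 hj).2).symm)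
  omega

end Pool.Agent.Results.MP_1155ce_an.RedGreen
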